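import Pool.Agent.Y579.PP.Gen
import Pool.Agent.H639.LU.K7

/-!
Turing equivalence is not generated by one pair of programs.
-/

set_option autoImplicit false

namespace Pool.Agent.Y579.PP

open Nat.Partrec (Code)
open Encodable
open Pool.Agent.H639.LU Pool.Agent.H869R3.FN
open Pool.Agent.Helper446.Defs Pool.Agent.Helper446.Oracle

theorem red_unique {c : Code} {X Y Y' : ℕ → Bool} (h : Red c X Y) (h' : Red c X Y') : Y = Y' := by
  funext n
  have h1 := (h' n (Y n).toNat).1 ((h n (Y n).toNat).2 rfl)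
  have h2 : ∀ a b : Bool, a.toNat = b.toNat → a = b := by decide
  exact h2 _ _ h1

/-- the sequence `000…` -/
def X0 : ℕ → Bool := fun _ => false

/-- forward orbit -/
def Fw (i j : Code) : ℕ → (ℕ → Bool) → Prop
  | 0, Y => Y = X0
  | n + 1, Y => ∃ Z, Fw i j n Z ∧ (Red i Z Y ∧ Red j Y Z)

theorem fw_closed {i j : Code} {X Y : ℕ → Bool}
    (h : Relation.EqvGen (fun X Y => Red i X Y ∧ Red j Y X) X Y) :
    (∃ n, Fw i j n X ∨ Fw j i n X) ↔ ∃ n, Fw i j n Y ∨ Fw j i n Y := by
  induction h with
  | rel X Y h =>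
    constructor
    · rintro ⟨n, hn | hn⟩
      · exact ⟨n + 1, Or.inl ⟨X, hn, h⟩⟩
      · cases n with
        | zero => exact ⟨1, Or.inl ⟨X, hn, h⟩⟩
        | succ n =>
          obtain ⟨Z, hZ, h1, h2⟩ := hn
          have e : Z = Y := red_unique h2 h.1
          exact ⟨n, Or.inr (e ▸ hZ)⟩
    · rintro ⟨n, hn | hn⟩
      · cases n with
        | zero => exact ⟨1, Or.inr ⟨Y, hn, h.2, h.1⟩⟩
        | succ n =>
          obtain ⟨Z, hZ, h1, h2⟩ := hn
          have e : Z = X := red_unique h2 h.2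
          exact ⟨n, Or.inl (e ▸ hZ)⟩
      · exact ⟨n + 1, Or.inr ⟨Y, hn, h.2, h.1⟩⟩
  | refl X => exact Iff.rfl
  | symm X Y _ ih => exact ih.symm
  | trans X Y Z _ _ ih1 ih2 => exact ih1.trans ih2

/-- a computable list of total programs for the orbit -/
theorem fw_list (i j : Code) : ∃ e : ℕ → Code, Computable e ∧ (∀ n, ∃ Y, Red (e n) X0 Y) ∧
    ∀ n Y, Fw i j n Y → ∃ m, Red (e m) X0 Y := by
  obtain ⟨κ, hκ, hκ'⟩ := K7
  obtain ⟨d, hd⟩ := exists_id
  let c : ℕ → Code := fun n => Nat.rec d (fun _ x => κ (x, i)) n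
  have hc : Computable c := by
    refine Computable.nat_rec (f := fun n : ℕ => n) (g := fun _ => d)
      (h := fun _ (p : ℕ × Code) => κ (p.2, i)) Computable.id (Computable.const d) ?_
    exact (hκ.comp ((Computable.snd.comp Computable.snd).pair (Computable.const i))).to₂
  have hF : ∀ n Y, Fw i j n Y → Red (c n) X0 Y := by
    intro n
    induction n with
    | zero =>
      rintro Y rfl
      exact hd _
    | succ n ih =>
      rintro Y ⟨Z, hZ, h1, -⟩
      exact hκ' _ _ _ _ _ (ih Z hZ) h1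
  by_cases hall : ∀ n, ∃ Y, Fw i j n Y
  · refine ⟨c, hc, fun n => ?_, fun n Y h => ⟨n, hF n Y h⟩⟩
    obtain ⟨Y, hY⟩ := hall n
    exact ⟨Y, hF n Y hY⟩
  · push Not at hall
    have hdown : ∀ n k, (∀ Y, ¬ Fw i j n Y) → ∀ Y, ¬ Fw i j (n + k) Y := by
      intro n k h
      induction k with
      | zero => exact h
      | succ k ih =>
        rintro Y ⟨Z, hZ, -⟩
        exact ih Z hZ
    classical
    have hN := Nat.find_spec hall
    have hlt : ∀ n < Nat.find hall, ∃ Y, Fw i j n Y := by
      intro n hn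
      have := Nat.find_min hall hn
      push Not at this
      exact this
    generalize Nat.find hall = N at hN hlt
    have hN0 : N ≠ 0 := by
      rintro rfl
      exact hN X0 rfl
    refine ⟨fun n => c (min n (N - 1)), hc.comp
      ((Primrec.nat_min.comp Primrec.id (Primrec.const (N - 1))).to_comp), fun n => ?_,
      fun n Y h => ?_⟩
    · obtain ⟨Y, hY⟩ := hlt (min n (N - 1)) (by omega)
      exact ⟨Y, hF _ Y hY⟩
    · have hn : n < N := by
        by_contra hcon
        obtain ⟨k, rfl⟩ := Nat.exists_eq_add_of_le (Nat.le_of_not_lt hcon)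
        exact hdown N k hN Y h
      refine ⟨n, ?_⟩
      have e1 : min n (N - 1) = n := min_eq_left (by omega)
      show Red (c (min n (N - 1))) X0 Y
      rw [e1]
      exact hF n Y h

/-- the values of a computable list of total programs on `000…` -/
theorem diag_comp {e : ℕ → Code} (he : Computable e) (ht : ∀ n, ∃ Y, Red (e n) X0 Y) :
    ∃ D : ℕ → Bool, Computable D ∧ ∀ n, ¬ Red (e n) X0 D := by
  choose Y hY using ht
  have hseg : Computable (fun s : ℕ => seg X0 s) := by
    unfold seg X0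
    exact (Primrec.list_map Primrec.list_range (Primrec.const false).to₂).to_comp
  have hf : Computable (fun p : ℕ × ℕ => Nat.Partrec.Code.evaln p.2.unpair.2 (e p.1)
      (encode (p.1, seg X0 p.2.unpair.1))) := by
    have h1 : Computable (fun p : ℕ × ℕ => p.2.unpair.1) :=
      (Primrec.fst.comp (Primrec.unpair.comp Primrec.snd)).to_comp
    have h2 : Computable (fun p : ℕ × ℕ => p.2.unpair.2) :=
      (Primrec.snd.comp (Primrec.unpair.comp Primrec.snd)).to_comp
    exact Nat.Partrec.Code.primrec_evaln.to_comp.comp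
      ((h2.pair (he.comp Computable.fst)).pair
        (Computable.encode.comp (Computable.fst.pair (hseg.comp h1))))
  have hp : Partrec (fun n : ℕ => Nat.rfindOpt (fun p => Nat.Partrec.Code.evaln p.unpair.2 (e n)
      (encode (n, seg X0 p.unpair.1)))) := Partrec.rfindOpt hf.to₂
  have hv : ∀ n, (Nat.rfindOpt (fun p => Nat.Partrec.Code.evaln p.unpair.2 (e n)
      (encode (n, seg X0 p.unpair.1)))) = Part.some (Y n n).toNat := by
    intro n
    have hdom : (Nat.rfindOpt (fun p => Nat.Partrec.Code.evaln p.unpair.2 (e n)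
        (encode (n, seg X0 p.unpair.1)))).Dom := by
      rw [Nat.rfindOpt_dom]
      obtain ⟨s, hs⟩ := (hY n n (Y n n).toNat).2 rfl
      obtain ⟨t, ht⟩ := Nat.Partrec.Code.evaln_complete.1 hs
      exact ⟨Nat.pair s t, (Y n n).toNat, by simpa using ht⟩
    obtain ⟨v, hv⟩ := Part.dom_iff_mem.1 hdom
    obtain ⟨p, hp⟩ := Nat.rfindOpt_spec hv
    have h1 := Nat.Partrec.Code.evaln_sound hp
    have h2 := (hY n n v).1 ⟨_, h1⟩
    rw [← h2]
    exact Part.eq_some_iff.2 hv
  have hc : Computable (fun n : ℕ => (Y n n).toNat) := hp.of_eq fun n => hv n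
  have hD : Computable (fun n : ℕ => decide ((Y n n).toNat = 0)) :=
    (Primrec.eq.decide.to_comp).comp hc (Computable.const 0)
  refine ⟨_, hD, fun n h => ?_⟩
  have h1 := congrFun (red_unique (hY n) h) n
  revert h1
  generalize Y n n = b
  revert b
  decide

theorem comp_red {D : ℕ → Bool} (hD : Computable D) : ∃ c : Code, ∀ X, Red c X D := by
  obtain ⟨c, hc⟩ := exists_fun (δ := fun p : ℕ × Str => D p.1) (hD.comp Computable.fst)
    (Computable.const 0)
  exact ⟨c, fun X => (hc _ _).2 fun n => rfl⟩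

/-- One pair of programs does not generate Turing equivalence, not even on the computable sets. -/
theorem one_pair (i j : Code) : ∃ X Y : ℕ → Bool, Computable X ∧ Computable Y ∧
    (le X Y ∧ le Y X) ∧ ¬ Relation.EqvGen (fun X Y => Red i X Y ∧ Red j Y X) X Y := by
  obtain ⟨e, he, he1, he2⟩ := fw_list i j
  obtain ⟨e', he', he1', he2'⟩ := fw_list j i
  have hd2 : Computable (fun n : ℕ => n / 2) :=
    (Primrec.nat_div.comp Primrec.id (Primrec.const 2)).to_comp
  have hm2 : Computable (fun n : ℕ => decide (n % 2 = 0)) :=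
    (Primrec.eq.decide.comp (Primrec.nat_mod.comp Primrec.id (Primrec.const 2))
      (Primrec.const 0)).to_comp
  have hE : Computable (fun n : ℕ => bif decide (n % 2 = 0) then e (n / 2) else e' (n / 2)) :=
    Computable.cond hm2 (he.comp hd2) (he'.comp hd2)
  obtain ⟨D, hD, hD'⟩ := diag_comp hE fun n => by
    cases decide (n % 2 = 0)
    · exact he1' _
    · exact he1 _
  obtain ⟨c, hc⟩ := comp_red hD
  have hX0 : Computable X0 := Computable.const false
  obtain ⟨c0, hc0⟩ := comp_red hX0
  refine ⟨X0, D, hX0, hD, ⟨(le_iff _ _).2 ⟨c0, hc0 _⟩, (le_iff _ _).2 ⟨c, hc _⟩⟩, fun h => ?_⟩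
  obtain ⟨n, hn⟩ := (fw_closed h).1 ⟨0, Or.inl rfl⟩
  rcases hn with hn | hn
  · obtain ⟨m, hm⟩ := he2 n D hn
    refine hD' (2 * m) ?_
    rw [decide_eq_true (by omega), cond_true, Nat.mul_div_cancel_left _ (by norm_num)]
    exact hm
  · obtain ⟨m, hm⟩ := he2' n D hn
    refine hD' (2 * m + 1) ?_
    rw [decide_eq_false (by omega), cond_false, show (2 * m + 1) / 2 = m by omega]
    exact hm

end Pool.Agent.Y579.PP
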