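import Pool.Agent.Y579.PP.Pair

/-!
Turing equivalence is generated by the change of the first digit and the pair of programs.
-/

set_option autoImplicit false

namespace Pool.Agent.Y579.PP

open Nat.Partrec (Code)
open Encodable
open Pool.Agent.H639.LU Pool.Agent.H869R3.FN
open Pool.Agent.Helper446.Defs Pool.Agent.Helper446.Oracle

/-- Families of relations between functions with values in the Cantor space (`α` is a set of
parameters) which contain the changes of the first digit and the pair; the index counts the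
changes of the first digit. -/
structure Cl (i j : Code) {α : Type} (R : ℕ → (α → ℕ → Bool) → (α → ℕ → Bool) → Prop) : Prop where
  refl : ∀ f, R 0 f f
  mono : ∀ m f g, R m f g → R (m + 1) f g
  symm : ∀ m f g, R m f g → R m g f
  trans : ∀ m m' f g h, R m f g → R m' g h → R (m + m') f h
  flp : ∀ f, R 1 f fun a => flip (f a)
  pr : ∀ f g, (∀ a, Red i (f a) (g a)) → (∀ a, Red j (g a) (f a)) → R 0 f g

section
variable {i j : Code} {α : Type} {R : ℕ → (α → ℕ → Bool) → (α → ℕ → Bool) → Prop}

theorem Cl.sw (h : Cl i j R) (b b' : Bool) (Z : α → ℕ → Bool) :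
    R 1 (fun a => cns b (Z a)) fun a => cns b' (Z a) := by
  by_cases hb : b = b'
  · subst hb
    exact h.mono 0 _ _ (h.refl _)
  · have h1 := h.flp fun a => cns b (Z a)
    simp only [flip_cns] at h1
    have h2 : ∀ b b' : Bool, ¬ b = b' → (!b) = b' := by decide
    rwa [h2 b b' hb] at h1

theorem Cl.ins0 (h : Cl i j R) (hp : Pair i j) (b b' : Bool) (Z : α → ℕ → Bool) :
    R 2 (fun a => cns b (Z a)) fun a => cns b' (cns false (Z a)) := by
  have h1 := h.sw b true Z
  have h2 := h.pr (fun a => cns true (Z a)) (fun a => cns true (cns false (Z a)))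
    (fun a => hp.a _) fun a => hp.a' _
  have h3 := h.sw true b' fun a => cns false (Z a)
  exact h.trans _ _ _ _ _ (h.trans _ _ _ _ _ h1 h2) h3

theorem Cl.ins1 (h : Cl i j R) (hp : Pair i j) (b b' : Bool) (Z : α → ℕ → Bool) :
    R 4 (fun a => cns b (Z a)) fun a => cns b' (cns true (Z a)) := by
  have h1 := h.sw b true Z
  have h2 := h.pr (fun a => cns true (Z a)) (fun a => cns true (cns false (Z a)))
    (fun a => hp.a _) fun a => hp.a' _
  have h3 := h.sw true false fun a => cns false (Z a)
  have h4 := h.pr (fun a => cns false (cns false (Z a)))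
    (fun a => cns false (cns false (cns true (Z a)))) (fun a => hp.b _) fun a => hp.b' _
  have h5 := h.sw false true fun a => cns false (cns true (Z a))
  have h6 := h.symm _ _ _ (h.pr (fun a => cns true (cns true (Z a)))
    (fun a => cns true (cns false (cns true (Z a)))) (fun a => hp.a _) fun a => hp.a' _)
  have h7 := h.sw true b' fun a => cns true (Z a)
  have t1 := h.trans _ _ _ _ _ (h.trans _ _ _ _ _ h1 h2) h3
  have t2 := h.trans _ _ _ _ _ (h.trans _ _ _ _ _ t1 h4) h5
  exact h.trans _ _ _ _ _ (h.trans _ _ _ _ _ t2 h6) h7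

theorem Cl.ins (h : Cl i j R) (hp : Pair i j) (b b' β : Bool) (Z : α → ℕ → Bool) :
    R 4 (fun a => cns b (Z a)) fun a => cns b' (cns β (Z a)) := by
  cases β
  · exact h.mono _ _ _ (h.mono _ _ _ (h.ins0 hp b b' Z))
  · exact h.ins1 hp b b' Z

theorem pf_zero (X : ℕ → Bool) : pf 0 X = cns true X := by
  funext n
  cases n with
  | zero => rfl
  | succ n => rfl

theorem pf_succ (k : ℕ) (X : ℕ → Bool) : pf (k + 1) X = cns false (pf k X) := by
  funext n
  cases n with
  | zero =>
    unfold pf cns
    simp
  | succ n =>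
    rw [cns_succ]
    unfold pf
    by_cases h1 : n < k
    · rw [if_pos h1, if_pos (by omega)]
    · by_cases h2 : n = k
      · rw [if_neg h1, if_pos h2, if_neg (by omega), if_pos (by omega)]
      · rw [if_neg h1, if_neg h2, if_neg (by omega), if_neg (by omega)]
        congr 1
        omega

theorem Cl.label (h : Cl i j R) (hp : Pair i j) (b : Bool) (k : ℕ) (f : α → ℕ → Bool)
    (hf : ∀ a, f a 0 = b) : R 12 f fun a => cns false (cns true (pf k (f a))) := by
  have h1 : R 4 f fun a => cns true (f a) := by
    have h2 := h.ins hp b true b fun a => tl (f a)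
    have e : (fun a => cns b (tl (f a))) = f := by
      funext a
      rw [← hf a, cns_tl]
    have e' : (fun a => cns true (cns b (tl (f a)))) = fun a => cns true (f a) := by
      funext a
      rw [← hf a, cns_tl]
    rwa [e, e'] at h2
  have h2 : ∀ k, R 4 (fun a => cns true (f a)) fun a => cns true (pf k (f a)) := by
    intro k
    induction k with
    | zero =>
      have h3 := h.ins1 hp true true f
      simp only [pf_zero]
      exact h3
    | succ k ih =>
      have h3 := h.pr (fun a => cns true (pf k (f a))) (fun a => cns true (cns false (pf k (f a))))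
        (fun a => hp.a _) fun a => hp.a' _
      simp only [pf_succ]
      exact h.trans _ _ _ _ _ ih h3
  have h3 := h.ins1 hp true false fun a => pf k (f a)
  exact h.trans _ _ _ _ _ (h.trans _ _ _ _ _ h1 (h2 k)) h3

theorem Cl.half (h : Cl i j R) (hp : Pair i j) (b b' : Bool) (k : ℕ) (f g : α → ℕ → Bool)
    (hf : ∀ a, f a 0 = b) (hg : ∀ a, jn k (f a) (g a) 0 = b')
    (hc : ∀ a, Red (Denumerable.ofNat Code (k / 2)) (f a) (g a)) :
    R 24 f fun a => jn k (f a) (g a) := by
  have h1 := h.label hp b k f hf
  have h2 := h.pr (fun a => cns false (cns true (pf k (f a))))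
    (fun a => cns false (cns true (pf k (jn k (f a) (g a))))) (fun a => hp.u k _ _ (hc a))
    fun a => hp.u' k _ _
  have h3 := h.symm _ _ _ (h.label hp b' k (fun a => jn k (f a) (g a)) hg)
  exact h.trans _ _ _ _ _ (h.trans _ _ _ _ _ h1 h2) h3

theorem Cl.main (h : Cl i j R) (hp : Pair i j) (b b' : Bool) (c d : Code) (f g : α → ℕ → Bool)
    (hf : ∀ a, f a 0 = b) (hg : ∀ a, g a 0 = b') (hc : ∀ a, Red c (f a) (g a))
    (hd : ∀ a, Red d (g a) (f a)) : R 48 f g := by
  have e1 : Denumerable.ofNat Code (2 * encode c / 2) = c := by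
    rw [Nat.mul_div_cancel_left _ (by norm_num), Denumerable.ofNat_encode]
  have e2 : Denumerable.ofNat Code ((2 * encode d + 1) / 2) = d := by
    rw [show (2 * encode d + 1) / 2 = encode d by omega, Denumerable.ofNat_encode]
  have e3 : ∀ a, jn (2 * encode d + 1) (g a) (f a) = jn (2 * encode c) (f a) (g a) := by
    intro a
    funext n
    unfold jn
    rcases Nat.mod_two_eq_zero_or_one n with hn | hn
    · rw [if_neg (by omega), if_pos (by omega)]
    · rw [if_pos (by omega), if_neg (by omega)]
  have e4 : ∀ a, jn (2 * encode c) (f a) (g a) 0 = b := by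
    intro a
    rw [← hf a]
    unfold jn
    rw [if_pos (by omega)]
  have h1 := h.half hp b b (2 * encode c) f g hf e4 fun a => by rw [e1]; exact hc a
  have h2 := h.half hp b' b (2 * encode d + 1) g f hg (fun a => by rw [e3]; exact e4 a)
    fun a => by rw [e2]; exact hd a
  simp only [e3] at h2
  exact h.trans _ _ _ _ _ h1 (h.symm _ _ _ h2)

end

/-- `Y` is obtained from `X` by the change of the first digit, or `X` and `Y` are Turing equivalent
by the pair of programs `(i, j)`. -/
def Step (i j : Code) (X Y : ℕ → Bool) : Prop := Y = flip X ∨ (Red i X Y ∧ Red j Y X)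

theorem cl_gen (i j : Code) : Cl i j (α := Unit)
    fun _ f g => Relation.EqvGen (Step i j) (f ()) (g ()) where
  refl f := Relation.EqvGen.refl _
  mono _ _ _ h := h
  symm _ _ _ h := h.symm
  trans _ _ _ _ _ h h' := h.trans _ _ _ h'
  flp f := Relation.EqvGen.rel _ _ (Or.inl rfl)
  pr f g h h' := Relation.EqvGen.rel _ _ (Or.inr ⟨h (), h' ()⟩)

theorem flip_flip (X : ℕ → Bool) : flip (flip X) = X := by
  funext n
  unfold flip
  by_cases h : n = 0
  · simp [h]
  · simp [h]

theorem red_flip : ∃ c : Code, ∀ X : ℕ → Bool, Red c X (flip X) := by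
  have hδ : Primrec (fun p : ℕ × Str => bif decide (p.1 = 0) then !(p.2.getD 0 false) else
      p.2.getD p.1 false) := by
    refine Primrec.cond ((Primrec.eq.decide).comp Primrec.fst (Primrec.const 0)) ?_ ?_
    · exact Primrec.not.comp ((Primrec.list_getD false).comp Primrec.snd (Primrec.const 0))
    · exact (Primrec.list_getD false).comp Primrec.snd Primrec.fst
  obtain ⟨c, hc⟩ := exists_fun hδ.to_comp (Primrec.succ.to_comp)
  refine ⟨c, fun X => (hc _ _).2 fun n => ?_⟩
  unfold flip
  by_cases h : n = 0
  · subst h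
    simp only [decide_true, cond_true, if_true]
    rw [seg_getD _ _ _ (by omega)]
  · simp only [decide_eq_false h, cond_false, if_neg h]
    rw [seg_getD _ _ _ (by omega)]

theorem step_le {i j : Code} {X Y : ℕ → Bool} (h : Step i j X Y) : le X Y ∧ le Y X := by
  rcases h with rfl | ⟨h1, h2⟩
  · obtain ⟨c, hc⟩ := red_flip
    refine ⟨(le_iff _ _).2 ⟨c, ?_⟩, (le_iff _ _).2 ⟨c, hc X⟩⟩
    have := hc (flip X)
    rwa [flip_flip] at this
  · exact ⟨(le_iff _ _).2 ⟨j, h2⟩, (le_iff _ _).2 ⟨i, h1⟩⟩

/-- Turing equivalence is generated by the change of the first digit and the pair. -/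
theorem gen_iff {i j : Code} (hp : Pair i j) (X Y : ℕ → Bool) :
    (le X Y ∧ le Y X) ↔ Relation.EqvGen (Step i j) X Y := by
  constructor
  · rintro ⟨h1, h2⟩
    obtain ⟨d, hd⟩ := (le_iff _ _).1 h1
    obtain ⟨c, hc⟩ := (le_iff _ _).1 h2
    exact (cl_gen i j).main hp (X 0) (Y 0) c d (fun _ => X) (fun _ => Y) (fun _ => rfl)
      (fun _ => rfl) (fun _ => hc) fun _ => hd
  · intro h
    induction h with
    | rel _ _ h => exact step_le h
    | refl _ => exact ⟨le_refl' _, le_refl' _⟩
    | symm _ _ _ ih => exact ⟨ih.2, ih.1⟩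
    | trans _ _ _ _ _ ih1 ih2 => exact ⟨le_trans' ih1.1 ih2.1, le_trans' ih2.2 ih1.2⟩

end Pool.Agent.Y579.PP
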