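import Pool.Agent.Y579.PP.Prog

/-!
The pair of programs.
-/

set_option autoImplicit false

namespace Pool.Agent.Y579.PP

open Nat.Partrec (Code)
open Encodable
open Pool.Agent.H639.LU Pool.Agent.H869R3.FN
open Pool.Agent.Helper446.Defs Pool.Agent.Helper446.Oracle

/-- the backward operation on the part after `01` -/
def dl2 (m : ℕ) (τ : Str) : Bool :=
  bif decide (m < fst1 τ) then false else bif decide (m = fst1 τ) then true else
    τ.getD (fst1 τ + 1 + (2 * (m - fst1 τ - 1) + fst1 τ % 2)) false

/-- the backward operation, as a function of an initial segment -/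
def dl (p : ℕ × Str) : Bool :=
  bif p.2.getD 0 false then (bif decide (p.1 = 0) then true else p.2.getD (p.1 + 1) false)
  else bif p.2.getD 1 false then
    (bif decide (p.1 = 0) then false else bif decide (p.1 = 1) then true
      else dl2 (p.1 - 2) (p.2.drop 2))
  else (bif decide (p.1 ≤ 1) then false else p.2.getD (p.1 + 1) false)

theorem dl2_prim : Primrec (fun p : ℕ × Str => dl2 p.1 p.2) := by
  have f1 : Primrec (fun p : ℕ × Str => fst1 p.2) := fst1_prim.comp Primrec.snd
  have f0 : Primrec (fun p : ℕ × Str => p.1) := Primrec.fst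
  have h1 : Primrec (fun p : ℕ × Str =>
      fst1 p.2 + 1 + (2 * (p.1 - fst1 p.2 - 1) + fst1 p.2 % 2)) := by
    refine Primrec.nat_add.comp (Primrec.succ.comp f1) (Primrec.nat_add.comp ?_ ?_)
    · refine Primrec.nat_mul.comp (Primrec.const 2) ?_
      exact Primrec.nat_sub.comp (Primrec.nat_sub.comp f0 f1) (Primrec.const 1)
    · exact Primrec.nat_mod.comp f1 (Primrec.const 2)
  refine Primrec.cond ((Primrec.nat_lt.decide).comp f0 f1) (Primrec.const false) ?_
  refine Primrec.cond ((Primrec.eq.decide).comp f0 f1) (Primrec.const true) ?_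
  exact (Primrec.list_getD false).comp Primrec.snd h1

theorem dl_prim : Primrec dl := by
  have f0 : Primrec (fun p : ℕ × Str => p.1) := Primrec.fst
  have g : ∀ k : ℕ, Primrec (fun p : ℕ × Str => p.2.getD k false) := fun k =>
    (Primrec.list_getD false).comp Primrec.snd (Primrec.const k)
  have g1 : Primrec (fun p : ℕ × Str => p.2.getD (p.1 + 1) false) :=
    (Primrec.list_getD false).comp Primrec.snd (Primrec.succ.comp f0)
  have e : ∀ k : ℕ, Primrec (fun p : ℕ × Str => decide (p.1 = k)) := fun k =>
    (Primrec.eq.decide).comp f0 (Primrec.const k)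
  have d2 : Primrec (fun p : ℕ × Str => dl2 (p.1 - 2) (p.2.drop 2)) := by
    refine dl2_prim.comp (f := fun p : ℕ × Str => dl2 p.1 p.2)
      (g := fun p : ℕ × Str => (p.1 - 2, p.2.drop 2)) ?_
    exact (Primrec.nat_sub.comp f0 (Primrec.const 2)).pair
      (Primrec.list_drop.comp (Primrec.const 2) Primrec.snd)
  refine Primrec.cond (g 0) (Primrec.cond (e 0) (Primrec.const true) g1) (Primrec.cond (g 1) ?_ ?_)
  · exact Primrec.cond (e 0) (Primrec.const false) (Primrec.cond (e 1) (Primrec.const true) d2)
  · exact Primrec.cond ((Primrec.nat_le.decide).comp f0 (Primrec.const 1)) (Primrec.const false) g1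

theorem seg_getD (X : ℕ → Bool) (t x : ℕ) (h : x < t) : (seg X t).getD x false = X x := by
  rw [List.getD_eq_getElem?_getD, seg_get, if_pos h]
  rfl

theorem seg_drop2 (a b : Bool) (X : ℕ → Bool) (t : ℕ) :
    (seg (cns a (cns b X)) (t + 2)).drop 2 = seg X t := by
  rw [show t + 2 = (t + 1) + 1 by omega, seg_cns, seg_cns]
  rfl

theorem dl_a (Z : ℕ → Bool) (n : ℕ) :
    cns true Z n = dl (n, seg (cns true (cns false Z)) (2 * n + 4)) := by
  unfold dl
  simp only
  rw [seg_getD _ _ _ (by omega), cns_zero, cond_true, seg_getD _ _ _ (by omega)]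
  cases n with
  | zero => rfl
  | succ n => rfl

theorem dl_b (Z : ℕ → Bool) (n : ℕ) : cns false (cns false Z) n =
    dl (n, seg (cns false (cns false (cns true Z))) (2 * n + 4)) := by
  unfold dl
  simp only
  rw [seg_getD _ _ _ (by omega), cns_zero, cond_false, seg_getD _ _ _ (by omega),
    show cns false (cns false (cns true Z)) 1 = false from rfl, cond_false,
    seg_getD _ _ _ (by omega)]
  match n with
  | 0 => rfl
  | 1 => rfl
  | n + 2 => rfl

theorem dl_u (k : ℕ) (X Y : ℕ → Bool) (n : ℕ) : cns false (cns true (pf k X)) n =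
    dl (n, seg (cns false (cns true (pf k (jn k X Y)))) (2 * n + 4)) := by
  unfold dl
  simp only
  rw [seg_getD _ _ _ (by omega), cns_zero, cond_false, seg_getD _ _ _ (by omega),
    show cns false (cns true (pf k (jn k X Y))) 1 = true from rfl, cond_true]
  match n with
  | 0 => rfl
  | 1 => rfl
  | m + 2 =>
    rw [show 2 * (m + 2) + 4 = (2 * (m + 2) + 2) + 2 by omega, seg_drop2]
    rw [decide_eq_false (by omega), decide_eq_false (by omega), cond_false, cond_false]
    show pf k X m = dl2 (m + 2 - 2) _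
    rw [Nat.add_sub_cancel]
    unfold dl2
    rcases Nat.lt_trichotomy m k with h | h | h
    · have h1 : m < fst1 (seg (pf k (jn k X Y)) (2 * (m + 2) + 2)) := by
        by_cases g : k < 2 * (m + 2) + 2
        · rw [fst1_long _ _ g]
          exact h
        · have h2 := fst1_short k (jn k X Y) (s := 2 * (m + 2) + 2) (by omega)
          rw [seg_len] at h2
          omega
      rw [decide_eq_true h1, cond_true]
      unfold pf
      rw [if_pos h]
    · rw [fst1_long _ _ (by omega), decide_eq_false (by omega), cond_false,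
        decide_eq_true h, cond_true]
      unfold pf
      rw [if_neg (by omega), if_pos h]
    · rw [fst1_long _ _ (by omega), decide_eq_false (by omega), cond_false,
        decide_eq_false (by omega), cond_false, seg_getD _ _ _ (by omega)]
      unfold pf
      rw [if_neg (by omega), if_neg (by omega), if_neg (by omega), if_neg (by omega)]
      have e1 : k + 1 + (2 * (m - k - 1) + k % 2) - k - 1 = 2 * (m - k - 1) + k % 2 := by omega
      rw [e1]
      unfold jn
      rw [if_pos (by omega)]
      congr 1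
      omega

/-- the properties of the pair of programs which are used -/
structure Pair (i j : Code) : Prop where
  a : ∀ Z, Red i (cns true Z) (cns true (cns false Z))
  a' : ∀ Z, Red j (cns true (cns false Z)) (cns true Z)
  b : ∀ Z, Red i (cns false (cns false Z)) (cns false (cns false (cns true Z)))
  b' : ∀ Z, Red j (cns false (cns false (cns true Z))) (cns false (cns false Z))
  u : ∀ (k : ℕ) (X Y : ℕ → Bool), Red (Denumerable.ofNat Code (k / 2)) X Y →
    Red i (cns false (cns true (pf k X))) (cns false (cns true (pf k (jn k X Y))))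
  u' : ∀ (k : ℕ) (X Y : ℕ → Bool),
    Red j (cns false (cns true (pf k (jn k X Y)))) (cns false (cns true (pf k X)))

/-- `j` is a primitive recursive operation. -/
def PrimOp (j : Code) : Prop :=
  ∃ (δ : ℕ × Str → Bool) (u : ℕ → ℕ), Primrec δ ∧ Primrec u ∧
    ∀ X Y : ℕ → Bool, Red j X Y ↔ ∀ n, Y n = δ (n, seg X (u n))

theorem exists_pair : ∃ i j : Code, Pair i j ∧ PrimOp j := by
  have hu : Primrec (fun n : ℕ => 2 * n + 4) :=
    Primrec.nat_add.comp (Primrec.nat_mul.comp (Primrec.const 2) Primrec.id) (Primrec.const 4)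
  obtain ⟨j, hj⟩ := exists_fun dl_prim.to_comp hu.to_comp
  obtain ⟨d, hd⟩ := exists_id
  obtain ⟨h, hh, hh'⟩ := exists_join
  obtain ⟨c, hc⟩ := exists_univ_pf h hh
  obtain ⟨a1, ha1⟩ := exists_out false d
  obtain ⟨a2, ha2⟩ := exists_out true a1
  obtain ⟨b1, hb1⟩ := exists_out true d
  obtain ⟨b2, hb2⟩ := exists_out false b1
  obtain ⟨b3, hb3⟩ := exists_out false b2
  obtain ⟨c1, hc1⟩ := exists_out true c
  obtain ⟨c2, hc2⟩ := exists_out false c1
  obtain ⟨e1, he1⟩ := exists_case c2 b3
  obtain ⟨i, hi⟩ := exists_case a2 e1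
  refine ⟨i, j, ⟨fun Z => ?_, fun Z => ?_, fun Z => ?_, fun Z => ?_, fun k X Y hXY => ?_,
    fun k X Y => ?_⟩, dl, _, dl_prim, hu, hj⟩
  · exact (hi _ _).1 (ha2 _ _ (ha1 _ _ (hd Z)))
  · exact (hj _ _).2 (dl_a Z)
  · exact (hi _ _).2 ((he1 _ _).2 (hb3 _ _ (hb2 _ _ (hb1 _ _ (hd Z)))))
  · exact (hj _ _).2 (dl_b Z)
  · exact (hi _ _).2 ((he1 _ _).1 (hc2 _ _ (hc1 _ _ (hc k _ _ (hh' k X Y hXY)))))
  · exact (hj _ _).2 (dl_u k X Y)

end Pool.Agent.Y579.PP
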