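import Pool.Agent.H869R3.FN.Main

/-!
Programs for the operations on oracles which are used in the theorem on the generation of Turing
equivalence.
-/

set_option autoImplicit false

namespace Pool.Agent.Y579.PP

open Nat.Partrec (Code)
open Encodable
open Pool.Agent.H639.LU Pool.Agent.H869R3.FN
open Pool.Agent.Helper446.Defs Pool.Agent.Helper446.Oracle

/-- The sequence `b X`: the digit `b` is put in front of `X`. -/
def cns (b : Bool) (X : ℕ → Bool) : ℕ → Bool := fun n => if n = 0 then b else X (n - 1)

/-- The sequence `X` without its first digit. -/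
def tl (X : ℕ → Bool) : ℕ → Bool := fun n => X (n + 1)

/-- The sequence `X` with the first digit changed. -/
def flip (X : ℕ → Bool) : ℕ → Bool := fun n => if n = 0 then !(X 0) else X n

theorem cns_zero (b : Bool) (X : ℕ → Bool) : cns b X 0 = b := rfl

theorem cns_succ (b : Bool) (X : ℕ → Bool) (n : ℕ) : cns b X (n + 1) = X n := rfl

theorem cns_tl (X : ℕ → Bool) : cns (X 0) (tl X) = X := by
  funext n
  cases n with
  | zero => rfl
  | succ n => rfl

theorem flip_cns (b : Bool) (X : ℕ → Bool) : flip (cns b X) = cns (!b) X := by
  funext n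
  cases n with
  | zero => rfl
  | succ n => rfl

theorem seg_cns (b : Bool) (X : ℕ → Bool) (s : ℕ) : seg (cns b X) (s + 1) = b :: seg X s := by
  unfold seg
  rw [List.range_succ_eq_map, List.map_cons, List.map_map]
  rfl

/-- reading the first digit -/
def cse (a b : Code) (p : ℕ × Str) : Part ℕ :=
  bif decide (p.2.head? = some true) then a.eval (encode (p.1, p.2.tail))
  else bif decide (p.2.head? = some false) then b.eval (encode (p.1, p.2.tail)) else Part.none

theorem cse_partrec (a b : Code) : Partrec (cse a b) := by
  have h1 : Computable (fun p : ℕ × Str => p.2.head?) :=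
    (Primrec.list_head?.comp Primrec.snd).to_comp
  have h2 : Computable (fun p : ℕ × Str => encode (p.1, p.2.tail)) :=
    Computable.encode.comp (Computable.fst.pair
      ((Primrec.list_tail.comp Primrec.snd).to_comp))
  have h3 : ∀ c : Code, Partrec (fun p : ℕ × Str => c.eval (encode (p.1, p.2.tail))) := fun c =>
    Nat.Partrec.Code.eval_part.comp (Computable.const c) h2
  have h4 : ∀ o : Option Bool, Computable (fun p : ℕ × Str => decide (p.2.head? = o)) := fun o =>
    (Primrec.eq.decide.to_comp).comp h1 (Computable.const o)
  exact Partrec.cond (h4 _) (h3 a) (Partrec.cond (h4 _) (h3 b) Partrec.none)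

/-- A program which reads the first digit of the oracle and then behaves as `a` or as `b`. -/
theorem exists_case (a b : Code) : ∃ c : Code, ∀ X Y : ℕ → Bool,
    (Red a X Y → Red c (cns true X) Y) ∧ (Red b X Y → Red c (cns false X) Y) := by
  obtain ⟨c, hc⟩ := code_of (cse_partrec a b)
  have h0 : ∀ (n : ℕ) (d : Bool) (X : ℕ → Bool), c.eval (encode (n, seg (cns d X) 0)) = Part.none := by
    intro n d X
    rw [hc]
    rfl
  have h1 : ∀ (n s : ℕ) (X : ℕ → Bool), c.eval (encode (n, seg (cns true X) (s + 1))) =
      a.eval (encode (n, seg X s)) := by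
    intro n s X
    rw [hc, seg_cns]
    rfl
  have h2 : ∀ (n s : ℕ) (X : ℕ → Bool), c.eval (encode (n, seg (cns false X) (s + 1))) =
      b.eval (encode (n, seg X s)) := by
    intro n s X
    rw [hc, seg_cns]
    rfl
  refine ⟨c, fun X Y => ⟨fun h n v => ?_, fun h n v => ?_⟩⟩
  · rw [← h n v]
    constructor
    · rintro ⟨s, hs⟩
      cases s with
      | zero =>
        rw [h0] at hs
        exact absurd hs (Part.notMem_none v)
      | succ s =>
        rw [h1] at hs
        exact ⟨s, hs⟩
    · rintro ⟨s, hs⟩
      exact ⟨s + 1, by rw [h1]; exact hs⟩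
  · rw [← h n v]
    constructor
    · rintro ⟨s, hs⟩
      cases s with
      | zero =>
        rw [h0] at hs
        exact absurd hs (Part.notMem_none v)
      | succ s =>
        rw [h2] at hs
        exact ⟨s, hs⟩
    · rintro ⟨s, hs⟩
      exact ⟨s + 1, by rw [h2]; exact hs⟩

/-- A program which puts a digit in front of the output of `a`. -/
theorem exists_out (b : Bool) (a : Code) : ∃ c : Code, ∀ X Y : ℕ → Bool,
    Red a X Y → Red c X (cns b Y) := by
  have hf : Partrec (fun p : ℕ × Str => bif decide (p.1 = 0) then Part.some b.toNat else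
      a.eval (encode (p.1 - 1, p.2))) := by
    refine Partrec.cond ((Primrec.eq.decide.to_comp).comp Computable.fst (Computable.const 0))
      (Computable.const _).partrec (Nat.Partrec.Code.eval_part.comp (Computable.const a) ?_)
    exact Computable.encode.comp ((Computable.pred.comp Computable.fst).pair Computable.snd)
  obtain ⟨c, hc⟩ := code_of hf
  refine ⟨c, fun X Y h n v => ?_⟩
  cases n with
  | zero =>
    constructor
    · rintro ⟨s, hs⟩
      rw [hc] at hs
      exact Part.mem_some_iff.1 hs
    · intro hv
      refine ⟨0, ?_⟩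
      rw [hc]
      exact Part.mem_some_iff.2 hv
  | succ n =>
    have e : ∀ s, c.eval (encode (n + 1, seg X s)) = a.eval (encode (n, seg X s)) := by
      intro s
      rw [hc]
      rfl
    simp only [e]
    exact h n v

/-- Programs for total operations on sequences, given by a function `δ` of initial segments. -/
theorem exists_fun {δ : ℕ × Str → Bool} {u : ℕ → ℕ} (hδ : Computable δ) (hu : Computable u) :
    ∃ c : Code, ∀ X Y : ℕ → Bool, Red c X Y ↔ ∀ n, Y n = δ (n, seg X (u n)) := by
  have hf : Partrec (fun p : ℕ × Str => bif decide (u p.1 ≤ p.2.length) then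
      Part.some (δ (p.1, p.2.take (u p.1))).toNat else Part.none) := by
    have h1 : Computable (fun p : ℕ × Str => u p.1) := hu.comp Computable.fst
    have h2 : Computable (fun p : ℕ × Str => p.2.length) :=
      Computable.list_length.comp Computable.snd
    have h3 : Computable (fun p : ℕ × Str => p.2.take (u p.1)) :=
      Primrec.list_take.to_comp.comp h1 Computable.snd
    have h4 : Computable (fun b : Bool => b.toNat) :=
      (Primrec.dom_finite (fun b : Bool => b.toNat)).to_comp
    refine Partrec.cond ((Primrec.nat_le.decide.to_comp).comp h1 h2) ?_ Partrec.none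
    exact (h4.comp (hδ.comp (Computable.fst.pair h3))).partrec
  obtain ⟨c, hc⟩ := code_of hf
  have e1 : ∀ (X : ℕ → Bool) (n s : ℕ), u n ≤ s → c.eval (encode (n, seg X s)) =
      Part.some (δ (n, seg X (u n))).toNat := by
    intro X n s h
    have h1 : (seg X s).take (u n) = seg X (u n) := by
      unfold seg
      rw [← List.map_take, List.take_range, min_eq_left h]
    rw [hc]
    simp only [seg_len, decide_eq_true h, cond_true, h1]
  have e2 : ∀ (X : ℕ → Bool) (n s : ℕ), ¬ u n ≤ s → c.eval (encode (n, seg X s)) = Part.none := by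
    intro X n s h
    rw [hc]
    simp only [seg_len, decide_eq_false h, cond_false]
  have e3 : ∀ (X : ℕ → Bool) (n v : ℕ), (∃ s, v ∈ c.eval (encode (n, seg X s))) ↔
      v = (δ (n, seg X (u n))).toNat := by
    intro X n v
    constructor
    · rintro ⟨s, hs⟩
      by_cases h : u n ≤ s
      · rw [e1 X n s h] at hs
        exact Part.mem_some_iff.1 hs
      · rw [e2 X n s h] at hs
        exact absurd hs (Part.notMem_none v)
    · intro h
      exact ⟨u n, by rw [e1 X n _ le_rfl]; exact Part.mem_some_iff.2 h⟩
  refine ⟨c, fun X Y => ⟨fun h n => ?_, fun h n v => ?_⟩⟩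
  · have h1 := (h n (Y n).toNat).2 rfl
    rw [e3] at h1
    have h2 : ∀ a b : Bool, a.toNat = b.toNat → a = b := by decide
    exact h2 _ _ h1
  · rw [e3, h n]

/-- The sequence whose digits with numbers of the parity of `k` are those of `X`, the other digits
are those of `Y`. -/
def jn (k : ℕ) (X Y : ℕ → Bool) : ℕ → Bool := fun n => if n % 2 = k % 2 then X (n / 2) else Y (n / 2)

/-- Programs for the join. -/
theorem exists_join : ∃ h : ℕ → Code, Computable h ∧ ∀ (k : ℕ) (X Y : ℕ → Bool),
    Red (Denumerable.ofNat Code (k / 2)) X Y → Red (h k) X (jn k X Y) := by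
  have hf : Partrec (fun a : ℕ × (ℕ × Str) => bif decide (a.2.1 % 2 = a.1 % 2) then
      (Part.ofOption ((a.2.2[a.2.1 / 2]?).map fun b => b.toNat) : Part ℕ) else
      (Denumerable.ofNat Code (a.1 / 2)).eval (encode (a.2.1 / 2, a.2.2))) := by
    have h1 : Computable (fun a : ℕ × (ℕ × Str) => a.1) := Computable.fst
    have h2 : Computable (fun a : ℕ × (ℕ × Str) => a.2.1) := Computable.fst.comp Computable.snd
    have h3 : Computable (fun a : ℕ × (ℕ × Str) => a.2.2) := Computable.snd.comp Computable.snd
    have m2 : Computable (fun n : ℕ => n % 2) :=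
      (Primrec.nat_mod.comp Primrec.id (Primrec.const 2)).to_comp
    have d2 : Computable (fun n : ℕ => n / 2) :=
      (Primrec.nat_div.comp Primrec.id (Primrec.const 2)).to_comp
    have h4 : Computable (fun a : ℕ × (ℕ × Str) => decide (a.2.1 % 2 = a.1 % 2)) :=
      (Primrec.eq.decide.to_comp).comp (m2.comp h2) (m2.comp h1)
    have h5 : Computable (fun a : ℕ × (ℕ × Str) => a.2.2[a.2.1 / 2]?) :=
      Primrec.list_getElem?.to_comp.comp h3 (d2.comp h2)
    have h6 : Computable (fun a : ℕ × (ℕ × Str) => ((a.2.2[a.2.1 / 2]?).map fun b => b.toNat)) :=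
      Computable.option_map h5
        ((Primrec.dom_finite (fun b : Bool => b.toNat)).to_comp.comp Computable.snd).to₂
    refine Partrec.cond h4 (Computable.ofOption h6) (Nat.Partrec.Code.eval_part.comp ?_ ?_)
    · exact (Computable.ofNat Code).comp (d2.comp h1)
    · exact Computable.encode.comp ((d2.comp h2).pair h3)
  have hp : Partrec (fun a : ℕ => (Part.ofOption (decode (α := ℕ × (ℕ × Str)) a)).bind
      fun a => (bif decide (a.2.1 % 2 = a.1 % 2) then
      (Part.ofOption ((a.2.2[a.2.1 / 2]?).map fun b => b.toNat) : Part ℕ) else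
      (Denumerable.ofNat Code (a.1 / 2)).eval (encode (a.2.1 / 2, a.2.2)))) :=
    Partrec.bind (Computable.ofOption Computable.decode) (hf.comp Computable.snd).to₂
  obtain ⟨c, hc⟩ := Nat.Partrec.Code.exists_code.1 (Partrec.nat_iff.1 hp)
  refine ⟨fun n => Nat.Partrec.Code.curry c n, ?_, fun k X Y h n v => ?_⟩
  · exact (Nat.Partrec.Code.primrec₂_curry.comp (Primrec.const c) Primrec.id).to_comp
  · have key : ∀ s, (Nat.Partrec.Code.curry c k).eval (encode (n, seg X s)) =
        (if n % 2 = k % 2 then (if n / 2 < s then Part.some (X (n / 2)).toNat else Part.none)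
          else (Denumerable.ofNat Code (k / 2)).eval (encode (n / 2, seg X s))) := by
      intro s
      rw [Nat.Partrec.Code.eval_curry, hc]
      change (Part.ofOption (decode (α := ℕ × (ℕ × Str)) (encode (k, (n, seg X s))))).bind _ = _
      rw [encodek]
      refine (Part.bind_some _ _).trans ?_
      change (bif decide (n % 2 = k % 2) then
        (Part.ofOption (((seg X s)[n / 2]?).map fun b => b.toNat) : Part ℕ) else
        (Denumerable.ofNat Code (k / 2)).eval (encode (n / 2, seg X s))) = _
      by_cases g : n % 2 = k % 2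
      · rw [if_pos g, decide_eq_true g, cond_true, seg_get]
        by_cases g' : n / 2 < s
        · rw [if_pos g', if_pos g']
          rfl
        · rw [if_neg g', if_neg g']
          rfl
      · rw [if_neg g, decide_eq_false g, cond_false]
    simp only [key]
    unfold jn
    by_cases g : n % 2 = k % 2
    · simp only [if_pos g]
      constructor
      · rintro ⟨s, hs⟩
        by_cases g' : n / 2 < s
        · rw [if_pos g'] at hs
          exact Part.mem_some_iff.1 hs
        · rw [if_neg g'] at hs
          exact absurd hs (Part.notMem_none v)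
      · intro hv
        exact ⟨n / 2 + 1, by rw [if_pos (by omega)]; exact Part.mem_some_iff.2 hv⟩
    · simp only [if_neg g]
      exact h (n / 2) v

end Pool.Agent.Y579.PP
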