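import Pool.Agent.Y579.PP.Gen
import Pool.Agent.H639.LU.All
import Pool.Agent.H639.LU.K7

/-!
No solution to Post's problem is uniformly invariant under the pair of programs, with a finite list
of candidates for the change of the first digit.
-/

set_option autoImplicit false

namespace Pool.Agent.Y579.PP

open Nat.Partrec (Code)
open Encodable
open Pool.Agent.H639.LU Pool.Agent.H869R3.FN
open Pool.Agent.Helper446.Defs Pool.Agent.Helper446.Oracle

/-- at most `n` programs suffice for the reductions of `W_r^{g a}` to `W_r^{f a}` -/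
def Few (r : Code) {α : Type} (n : ℕ) (f g : α → ℕ → Bool) : Prop :=
  ∃ L : Finset Code, L.card ≤ n ∧ ∀ a, ∃ l ∈ L, Red l (ch (W r (f a))) (ch (W r (g a)))

section
variable {r : Code} {α : Type}

theorem Few.refl (f : α → ℕ → Bool) : Few r 1 f f := by
  obtain ⟨d, hd⟩ := exists_id
  exact ⟨{d}, by simp, fun a => ⟨d, by simp, hd _⟩⟩

theorem Few.mono {n m : ℕ} {f g : α → ℕ → Bool} (h : Few r n f g) (hnm : n ≤ m) : Few r m f g := by
  obtain ⟨L, h1, h2⟩ := h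
  exact ⟨L, h1.trans hnm, h2⟩

theorem Few.trans {n m : ℕ} {f g k : α → ℕ → Bool} (h : Few r n f g) (h' : Few r m g k) :
    Few r (n * m) f k := by
  classical
  obtain ⟨κ, -, hκ⟩ := K7
  obtain ⟨L, h1, h2⟩ := h
  obtain ⟨L', h1', h2'⟩ := h'
  refine ⟨(L ×ˢ L').image κ, ?_, fun a => ?_⟩
  · refine Finset.card_image_le.trans ?_
    rw [Finset.card_product]
    exact Nat.mul_le_mul h1 h1'
  · obtain ⟨l, hl, hl2⟩ := h2 a
    obtain ⟨l', hl', hl2'⟩ := h2' a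
    exact ⟨κ (l, l'), Finset.mem_image.2 ⟨(l, l'), Finset.mem_product.2 ⟨hl, hl'⟩, rfl⟩,
      hκ _ _ _ _ _ hl2 hl2'⟩

/-- the hypothesis of uniformity -/
structure UnifHyp (i j r : Code) (z : ℕ → Bool) (K : ℕ) (A : Finset Code) (b b' : Code) : Prop where
  pos : 1 ≤ K
  card : A.card ≤ K
  flp : ∀ X, le z X → ∃ l ∈ A, Red l (ch (W r X)) (ch (W r (flip X)))
  pr : ∀ X Y, le z X → Red i X Y → Red j Y X →
    Red b (ch (W r X)) (ch (W r Y)) ∧ Red b' (ch (W r Y)) (ch (W r X))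

theorem cl_few {i j r : Code} {z : ℕ → Bool} {K : ℕ} {A : Finset Code} {b b' : Code}
    (h : UnifHyp i j r z K A b b') : Cl i j (α := α) fun m f g =>
      (∀ a, le (f a) (g a) ∧ le (g a) (f a)) ∧
        ((∀ a, le z (f a)) → Few r (K ^ m) f g ∧ Few r (K ^ m) g f) where
  refl f := ⟨fun _ => ⟨le_refl' _, le_refl' _⟩, fun _ => by
    rw [pow_zero]
    exact ⟨Few.refl f, Few.refl f⟩⟩
  mono m f g hm := ⟨hm.1, fun hz => by
    have hK : K ^ m ≤ K ^ (m + 1) := Nat.pow_le_pow_right h.pos (Nat.le_succ m)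
    exact ⟨(hm.2 hz).1.mono hK, (hm.2 hz).2.mono hK⟩⟩
  symm m f g hm := ⟨fun a => (hm.1 a).symm, fun hz =>
    (hm.2 fun a => le_trans' (hz a) (hm.1 a).2).symm⟩
  trans m m' f g k h1 h2 := ⟨fun a => ⟨le_trans' (h1.1 a).1 (h2.1 a).1,
    le_trans' (h2.1 a).2 (h1.1 a).2⟩, fun hz => by
      have hz' : ∀ a, le z (g a) := fun a => le_trans' (hz a) (h1.1 a).1
      refine ⟨?_, ?_⟩
      · rw [pow_add]
        exact (h1.2 hz).1.trans (h2.2 hz').1
      · rw [pow_add, mul_comm]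
        exact (h2.2 hz').2.trans (h1.2 hz).2⟩
  flp f := by
    have hle : ∀ a, le (f a) (flip (f a)) ∧ le (flip (f a)) (f a) := fun a =>
      step_le (i := i) (j := j) (Or.inl rfl)
    refine ⟨hle, fun hz => ?_⟩
    rw [pow_one]
    refine ⟨⟨A, h.card, fun a => h.flp _ (hz a)⟩, ⟨A, h.card, fun a => ?_⟩⟩
    have h1 := h.flp (flip (f a)) (le_trans' (hz a) (hle a).1)
    rwa [flip_flip] at h1
  pr f g h1 h2 := by
    refine ⟨fun a => step_le (i := i) (j := j) (Or.inr ⟨h1 a, h2 a⟩), fun hz => ?_⟩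
    rw [pow_zero]
    exact ⟨⟨{b}, by simp, fun a => ⟨b, by simp, (h.pr _ _ (hz a) (h1 a) (h2 a)).1⟩⟩,
      ⟨{b'}, by simp, fun a => ⟨b', by simp, (h.pr _ _ (hz a) (h1 a) (h2 a)).2⟩⟩⟩

end

theorem no_unif {i j : Code} (hp : Pair i j) {r : Code} {z₀ : ℕ → Bool}
    (hr : ∀ X, le z₀ X → ¬ le (ch (W r X)) X ∧ le X (ch (W r X)) ∧ ¬ le (ch (J X)) (ch (W r X)))
    {z : ℕ → Bool} {K : ℕ} {A : Finset Code} {b b' : Code} : ¬ UnifHyp i j r z K A b b' := by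
  classical
  intro h
  obtain ⟨i', j', hij⟩ := Pool.Agent.H639.LU.main r z₀ hr (4 * K ^ 48)
  have key : ∀ q : Bool × Bool, ∃ L : Finset Code, L.card ≤ K ^ 48 ∧ ∀ X Y : ℕ → Bool,
      le z X → Red i' X Y → Red j' Y X → X 0 = q.1 → Y 0 = q.2 →
        ∃ l ∈ L, Red l (ch (W r X)) (ch (W r Y)) := by
    intro q
    let α := {p : (ℕ → Bool) × (ℕ → Bool) // le z p.1 ∧ Red i' p.1 p.2 ∧ Red j' p.2 p.1 ∧
      p.1 0 = q.1 ∧ p.2 0 = q.2}
    obtain ⟨-, h1⟩ := (cl_few (α := α) h).main hp q.1 q.2 i' j' (fun a => a.1.1) (fun a => a.1.2)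
      (fun a => a.2.2.2.2.1) (fun a => a.2.2.2.2.2) (fun a => a.2.2.1) fun a => a.2.2.2.1
    obtain ⟨⟨L, h2, h3⟩, -⟩ := h1 fun a => a.2.1
    exact ⟨L, h2, fun X Y hX h4 h5 h6 h7 => h3 ⟨(X, Y), hX, h4, h5, h6, h7⟩⟩
  choose L hL1 hL2 using key
  obtain ⟨X, Y, h1, h2, h3, h4⟩ := hij (Finset.univ.biUnion L) (by
    refine Finset.card_biUnion_le.trans ?_
    refine (Finset.sum_le_sum fun q _ => hL1 q).trans ?_
    simp) z
  obtain ⟨l, hl, hl'⟩ := hL2 (X 0, Y 0) X Y h1 h2 h3 rfl rfl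
  exact h4 l (Finset.mem_biUnion.2 ⟨_, Finset.mem_univ _, hl⟩) hl'

end Pool.Agent.Y579.PP
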